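import Pool.Agent.Helper70.SH.Asm
import Pool.Agent.Helper43.CL.HGrows

/-!
# Project SHARP, zone II: parities of the data of a record
-/

set_option autoImplicit false

namespace Helper49.Cell

open Helper49.LT hiding sg
open Helper56.RC (fc)
open Helper70.SH (Len cd)

/-- the coefficients of `zA k` sit on the residue class of `k` modulo 2 -/
theorem cA_par (k : ℤ) (l : List (ℤ × ℤ)) (n : ℤ) (h : ¬ Even (n - k)) : zi (cA k l n) = 0 := by
  induction l generalizing k with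
  | nil => simp [cA, zi]
  | cons p l ih =>
    have h2 : ¬ Even (n - (k + 2)) := fun he => h (by
      obtain ⟨a, ha⟩ := he
      exact ⟨a + 1, by omega⟩)
    have e := ih (k + 2) h2
    have hk : ¬ n = k := fun hn => h (by rw [hn, sub_self]; exact Even.zero)
    unfold zi at e ⊢
    show (((bif decide (n = k) then p.1 else 0) + (cA (k + 2) l n).1 : ℤ) : ℂ) + Complex.I *
      (((bif decide (n = k) then p.2 else 0) + (cA (k + 2) l n).2 : ℤ) : ℂ) = 0
    rw [decide_eq_false hk, cond_false, cond_false, zero_add, zero_add]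
    exact e

section

variable (R : Rec) {C : Crt} (h : R.ok C = true) {K0 : ℕ} (len : Len R K0) (s : ℕ)

/-- the parities which helper43's account of the head form needs -/
theorem loE_rec : Helper43.CL.LoE (cd R h len s) := by
  refine ⟨fun n hn => ?_, fun n hn => ?_, fun n hn => ?_⟩
  · show fc R.cb.z0 n = 0
    rw [Rec.fc_z0, cA_par (-11) R.z n (fun he => ?_), zero_div]
    obtain ⟨a, ha⟩ := hn
    obtain ⟨b, hb⟩ := he
    omega
  · show fc (fun t => (R.cb.b2 t : ℂ)) n = 0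
    have h1 : ¬ Even (n - 2) := fun he => hn (by
      obtain ⟨b, hb⟩ := he
      exact ⟨b + 1, by omega⟩)
    have h2 : ¬ Even (-n - 2) := fun he => hn (by
      obtain ⟨b, hb⟩ := he
      exact ⟨-b - 1, by omega⟩)
    have h0 : ¬ n = 0 := fun h0 => hn (by rw [h0]; exact Even.zero)
    rw [Rec.fc_b2, cA_par 2 R.b2 n h1, Rec.zi_conj_zero (cA_par 2 R.b2 (-n) h2), if_neg h0]
    simp
  · show fc (fun t => (R.cb.b3 t : ℂ)) n = 0
    have h1 : ¬ Even (n - 2) := fun he => hn (by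
      obtain ⟨b, hb⟩ := he
      exact ⟨b + 1, by omega⟩)
    have h2 : ¬ Even (-n - 2) := fun he => hn (by
      obtain ⟨b, hb⟩ := he
      exact ⟨-b - 1, by omega⟩)
    have h0 : ¬ n = 0 := fun h0 => hn (by rw [h0]; exact Even.zero)
    rw [Rec.fc_b3, cA_par 2 R.b3 n h1, Rec.zi_conj_zero (cA_par 2 R.b3 (-n) h2), if_neg h0]
    simp

end

section

variable {R : Rec}

/-- the shift of a record -/
theorem par_ps : R.par.ps = Pool.Agent.Helper99.RC.ps ((R.d : ℝ) / 100000) ((R.k : ℝ) / 100000)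
    (Real.pi + ((R.pc : ℂ) + Complex.I * (R.ps : ℂ)).arg) := rfl

/-- its phase -/
theorem ee_phase {C : Crt} (h : R.ok C = true) : ee (Real.pi + ((R.pc : ℂ) + Complex.I * (R.ps : ℂ)).arg) =
    -(((R.pc : ℂ) + Complex.I * (R.ps : ℂ)) / (R.ph : ℂ)) := by
  unfold Rec.ok at h
  simp only [bif_iff] at h
  obtain ⟨h0, hA, _⟩ := h
  have hA : 16 * (R.e1 * R.e1 + R.e2 * R.e2) ≤ 10000000000 ∧ R.d.natAbs + R.k.natAbs ≤ 100000 ∧ 0 < R.nu ∧ R.lam ≤ R.m ∧
    R.m ≤ 100000 ∧ 4 * (R.e1 * R.e1 + R.e2 * R.e2) ≤ (100000 - R.m) * (100000 - R.m) ∧ 0 < R.ph ∧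
    R.pc * R.pc + R.ps * R.ps = R.ph * R.ph := of_decide_eq_true hA
  obtain ⟨_, _, _, _, _, _, r7, r8⟩ := hA
  have r7 : (0 : ℝ) < R.ph := by exact_mod_cast r7
  have r8 : (R.pc : ℝ) * R.pc + R.ps * R.ps = R.ph * R.ph := by exact_mod_cast r8
  set w : ℂ := (R.pc : ℂ) + Complex.I * (R.ps : ℂ) with hw
  have hn : ‖w‖ = R.ph := by
    have h1 : ‖w‖ ^ 2 = (R.ph : ℝ) ^ 2 := by
      rw [← Complex.normSq_eq_norm_sq, Complex.normSq_apply, hw]
      simp
      nlinarith
    exact (sq_eq_sq₀ (norm_nonneg _) r7.le).1 h1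
  have hm := Complex.norm_mul_exp_arg_mul_I w
  rw [hn] at hm
  have hp : (R.ph : ℂ) ≠ 0 := by exact_mod_cast r7.ne'
  have e1 : ee (Real.pi + w.arg) = -Complex.exp (w.arg * Complex.I) := by
    rw [ee_add]
    unfold ee
    rw [Complex.exp_pi_mul_I]
    ring
  rw [e1, neg_inj, eq_div_iff hp]
  refine Eq.trans ?_ hm
  push_cast
  ring

/-- no constant alignment -/
theorem fc_a0 (n : ℤ) : fc R.par.a0 n = 0 := by
  rw [Helper70.SH.par_a0]
  unfold fc
  simp

end

section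

variable (R : Rec) {C : Crt} (h : R.ok C = true) {K0 : ℕ} (len : Len R K0) (s : ℕ)

theorem zA_per (k : ℤ) (l : List (ℤ × ℤ)) (t : ℝ) : zA k l (t + 2 * Real.pi) = zA k l t := by
  have e : t + 2 * Real.pi = (t + Real.pi) + Real.pi := by ring
  rw [e, zA_pi, zA_pi, ← mul_assoc, ← ee_add]
  have h1 : (k : ℝ) * Real.pi + (k : ℝ) * Real.pi = (k : ℝ) * (0 + 2 * Real.pi) := by ring
  rw [h1, ee_int, mul_zero]
  unfold ee
  simp

/-- the density `f` is `2 pi`-periodic -/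
theorem cd_hf (x : ℝ) : (cd R h len s).L.f (x + 2 * Real.pi) = (cd R h len s).L.f x := by
  rw [Helper70.SH.cd_f]
  show (17 / 20 : ℝ) - 4 / 5 * ‖zA (-11) R.z (x + 2 * Real.pi) / 100000‖ ^ 2 =
    17 / 20 - 4 / 5 * ‖zA (-11) R.z x / 100000‖ ^ 2
  rw [zA_per]

end

end Helper49.Cell
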