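import Mathlib

/-!
# Project SHARP, cells: the total error of the blocks
-/

set_option autoImplicit false

namespace Helper49.SH

/-- all errors and the rounding of the matrix check, for the kernel -/
def sumE (E : ℕ → ℕ) (Ed n e : ℕ) : ℕ :=
  Nat.add (Nat.add (Nat.add (Nat.add (Nat.add (Nat.add (Nat.add (Nat.add (Nat.add (Nat.add (Nat.add (Nat.add
    (Nat.add (Nat.add (Nat.add (E 0) (E 1)) (E 2)) (E 3)) (E 4)) (E 5)) (E 6)) (E 7)) (E 8)) (E 9)) (E 10)) (E 11))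
    (E 12)) (E 13)) Ed) (Nat.mul n (Nat.succ e))

/-- the hypothesis `hE` of helper42's `cell_ok` -/
theorem hE_of {E : ℕ → ℕ} {Ed n e T : ℕ} (h : Nat.ble (sumE E Ed n e) T = true) :
    ∑ i ∈ Finset.range 14, E i + Ed + n * (e + 1) ≤ T := by
  have h1 : sumE E Ed n e ≤ T := Nat.le_of_ble_eq_true h
  have h2 : sumE E Ed n e = ∑ i ∈ Finset.range 14, E i + Ed + n * (e + 1) := by
    simp only [Finset.sum_range_succ, Finset.sum_range_zero, zero_add]
    rfl
  omega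

theorem hE_real {E : ℕ → ℕ} {Ed n e T : ℕ} (h : Nat.ble (sumE E Ed n e) T = true) :
    (∑ i ∈ Finset.range 14, ((E i : ℕ) : ℝ)) + ((Ed : ℕ) : ℝ) + ((n : ℕ) : ℝ) * (((e : ℕ) : ℝ) + 1) ≤ ((T : ℕ) : ℝ) := by
  have h1 := hE_of h
  exact_mod_cast h1

end Helper49.SH
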